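import Pool.Agent.Helper912.LP5
import Pool.Agent.Helper519.P2.M_P2_of_P1
import Pool.Agent.Helper519.LG.L3
import Pool.Agent.Helper704.LG.Glue
import Pool.Agent.CTH.Main
import Pool.Agent.Helper710.FT3

/-!
# Bounds for the 4-linear simplex Hilbert transform and the triangular Hilbert transform

Proof: log-determinant potentials of translated kernel matrices give the uniform bound for the
triangular form; Cauchy-Schwarz in the first function, partial fractions and level sets give the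
`(log (N/ε))^(1/2)` growth for the 4-linear form; a fixed test function is a superposition of
products `a(x₁,x₂) b(x₂,x₃) c(x₃,x₁)`.
-/

set_option autoImplicit false

open MeasureTheory Set Filter Topology

namespace Pool.Agent.Results.MP_5ef378_an.AAllParts

/-- truncated 4-linear simplex Hilbert form: integral over `ε < |s| < N`,
`s = x₁ + x₂ + x₃ + x₄`, of `f(x₁,x₂,x₃) g(x₂,x₃,x₄) h(x₃,x₄,x₁) k(x₄,x₁,x₂) / s` -/
noncomputable def Lambda4 (ε N : ℝ) (f g h k : ℝ × ℝ × ℝ → ℝ) : ℝ :=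
  ∫ x in {x : ℝ × ℝ × ℝ × ℝ | ε < |x.1 + x.2.1 + x.2.2.1 + x.2.2.2| ∧
      |x.1 + x.2.1 + x.2.2.1 + x.2.2.2| < N},
    f (x.1, x.2.1, x.2.2.1) * g (x.2.1, x.2.2.1, x.2.2.2) * h (x.2.2.1, x.2.2.2, x.1) *
      k (x.2.2.2, x.1, x.2.1) / (x.1 + x.2.1 + x.2.2.1 + x.2.2.2)

/-- truncated triangular Hilbert form: integral over `ε < |s| < N`, `s = x₁ + x₂ + x₃`, of
`f(x₁,x₂) g(x₂,x₃) h(x₃,x₁) / s` -/
noncomputable def Lambda3 (ε N : ℝ) (f g h : ℝ × ℝ → ℝ) : ℝ :=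
  ∫ x in {x : ℝ × ℝ × ℝ | ε < |x.1 + x.2.1 + x.2.2| ∧ |x.1 + x.2.1 + x.2.2| < N},
    f (x.1, x.2.1) * g (x.2.1, x.2.2) * h (x.2.2, x.1) / (x.1 + x.2.1 + x.2.2)

/-- bounded measurable functions with compact support on `ℝ³`; every test function is one -/
structure Adm (f : ℝ × ℝ × ℝ → ℝ) : Prop where
  meas : Measurable f
  supp : HasCompactSupport f
  bdd : ∃ M : ℝ, ∀ p, |f p| ≤ M

/-- bounded measurable functions with compact support on `ℝ²`; every test function is one -/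
structure Adm2 (f : ℝ × ℝ → ℝ) : Prop where
  meas : Measurable f
  supp : HasCompactSupport f
  bdd : ∃ M : ℝ, ∀ p, |f p| ≤ M

/-- the `L⁴(ℝ³)` norm -/
noncomputable def norm4 (f : ℝ × ℝ × ℝ → ℝ) : ℝ := (eLpNorm f 4 volume).toReal

/-- the `L³(ℝ²)` norm -/
noncomputable def norm3 (f : ℝ × ℝ → ℝ) : ℝ := (eLpNorm f 3 volume).toReal

/-- the closed cube with lowest corner `q` and side `L` -/
def cube (q : ℝ × ℝ × ℝ) (L : ℝ) : Set (ℝ × ℝ × ℝ) :=
  {x | (q.1 ≤ x.1 ∧ x.1 ≤ q.1 + L) ∧ (q.2.1 ≤ x.2.1 ∧ x.2.1 ≤ q.2.1 + L) ∧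
    (q.2.2 ≤ x.2.2 ∧ x.2.2 ≤ q.2.2 + L)}

/-- the derivative of `f` in direction `v` -/
noncomputable def pd (v : ℝ × ℝ × ℝ) (f : ℝ × ℝ × ℝ → ℝ) (p : ℝ × ℝ × ℝ) : ℝ := fderiv ℝ f p v

/-- the mixed derivative `∂₁∂₂∂₃ f` -/
noncomputable def mixed (f : ℝ × ℝ × ℝ → ℝ) : ℝ × ℝ × ℝ → ℝ :=
  pd (0, 0, 1) (pd (0, 1, 0) (pd (1, 0, 0) f))

/-- `B` bounds the truncated forms `F ε N`, `0 < ε < N`, and their limit as `ε → 0+`, `N → ∞`
(the principal value) if it exists -/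
def Bounded (F : ℝ → ℝ → ℝ) (B : ℝ) : Prop :=
  (∀ ε N : ℝ, 0 < ε → ε < N → |F ε N| ≤ B) ∧
  (∀ A : ℝ, Tendsto (fun e : ℝ × ℝ => F e.1 e.2) (𝓝[>] 0 ×ˢ atTop) (𝓝 A) → |A| ≤ B)

/-- `B` bounds the four forms with `f` in one slot and `g, h, k` in the others -/
def BoundAll (f g h k : ℝ × ℝ × ℝ → ℝ) (B : ℝ) : Prop :=
  Bounded (fun ε N => Lambda4 ε N f g h k) B ∧ Bounded (fun ε N => Lambda4 ε N g f h k) B ∧
  Bounded (fun ε N => Lambda4 ε N g h f k) B ∧ Bounded (fun ε N => Lambda4 ε N g h k f) B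

/-- the truncated form as an integral against the truncated kernel -/
lemma lam_eq (ε N : ℝ) (f g h k : ℝ × ℝ × ℝ → ℝ) :
    Lambda4 ε N f g h k = Pool.Agent.CTH.Lam4 ε N f g h k := by
  unfold Lambda4
  rw [Helper912.LG.T4_set]
  unfold Helper912.LG.T4 Pool.Agent.CTH.Lam4 Pool.Agent.CTH.F4 Helper912.LG.kap
    Pool.Agent.CTH.trunc
  simp only [one_div]

lemma lam3_eq (ε N : ℝ) (f g h : ℝ × ℝ → ℝ) :
    Lambda3 ε N f g h = ∫ p : ℝ × ℝ × ℝ, Helper912.Z.F3 f g h p *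
      Pool.Agent.CTH.trunc ε N (p.1 + p.2.1 + p.2.2) := by
  have hms : MeasurableSet {x : ℝ × ℝ × ℝ | ε < |x.1 + x.2.1 + x.2.2| ∧
        |x.1 + x.2.1 + x.2.2| < N} := by
    have ha : Measurable (fun x : ℝ × ℝ × ℝ => |x.1 + x.2.1 + x.2.2|) := by
      fun_prop
    exact (measurableSet_lt measurable_const ha).inter (measurableSet_lt ha measurable_const)
  unfold Lambda3
  rw [← integral_indicator hms]
  refine integral_congr_ae (Filter.Eventually.of_forall (fun x => ?_))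
  simp only [Set.indicator, Set.mem_setOf_eq, Pool.Agent.CTH.trunc, Helper912.Z.F3]
  split_ifs with hx
  · rw [div_eq_mul_inv]
  · ring

lemma lam_rot (ε N : ℝ) (f g h k : ℝ × ℝ × ℝ → ℝ) :
    Lambda4 ε N f g h k = Lambda4 ε N g h k f := by
  rw [lam_eq, lam_eq]
  exact Pool.Agent.H710FT.lam_rot ε N f g h k

lemma bounded_of {F : ℝ → ℝ → ℝ} {B : ℝ} (h : ∀ ε N : ℝ, 0 < ε → ε < N → |F ε N| ≤ B) :
    Bounded F B := by
  refine ⟨h, fun A hA => ?_⟩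
  have e1 : ∀ᶠ e : ℝ × ℝ in (𝓝[>] (0:ℝ) ×ˢ (atTop : Filter ℝ)), 0 < e.1 ∧ e.1 < e.2 := by
    have a1 : ∀ᶠ x : ℝ in 𝓝[>] (0:ℝ), x ∈ Ioo (0:ℝ) 1 := Ioo_mem_nhdsGT one_pos
    have a2 : ∀ᶠ x : ℝ in (atTop : Filter ℝ), 1 < x := eventually_gt_atTop 1
    filter_upwards [a1.prod_mk a2] with e he
    exact ⟨he.1.1, he.1.2.trans he.2⟩
  refine le_of_tendsto hA.abs ?_
  filter_upwards [e1] with e he
  exact h e.1 e.2 he.1 he.2

lemma boundAll_of {f : ℝ × ℝ × ℝ → ℝ} {D : ℝ}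
    (H : ∀ g h k : ℝ × ℝ × ℝ → ℝ, Adm g → Adm h → Adm k → ∀ ε N : ℝ, 0 < ε → ε < N →
      |Lambda4 ε N f g h k| ≤ D * (norm4 g * norm4 h * norm4 k))
    (g h k : ℝ × ℝ × ℝ → ℝ) (hg : Adm g) (hh : Adm h) (hk : Adm k) :
    BoundAll f g h k (D * (norm4 g * norm4 h * norm4 k)) := by
  refine ⟨bounded_of fun ε N h0 h1 => ?_, bounded_of fun ε N h0 h1 => ?_,
    bounded_of fun ε N h0 h1 => ?_, bounded_of fun ε N h0 h1 => ?_⟩
  · exact H g h k hg hh hk ε N h0 h1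
  · show |Lambda4 ε N g f h k| ≤ _
    rw [lam_rot]
    exact (H h k g hh hk hg ε N h0 h1).trans (le_of_eq (by ring))
  · show |Lambda4 ε N g h f k| ≤ _
    rw [lam_rot, lam_rot]
    exact (H k g h hk hg hh ε N h0 h1).trans (le_of_eq (by ring))
  · show |Lambda4 ε N g h k f| ≤ _
    rw [← lam_rot]
    exact H g h k hg hh hk ε N h0 h1

/-- (1) The 4-linear form on `L⁴ × L⁴ × L⁴ × L⁴` grows at most like `(1 + log (N/ε))^(1/2)`.
(2) The triangular Hilbert form is bounded on `L³ × L³ × L³`, uniformly in the truncation.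
(3) For `f` of class `C³` supported in a cube of side `L`, in any of the four slots, the forms
are bounded by `C ‖∂₁∂₂∂₃f‖₁ L^{3/4} ‖g‖₄ ‖h‖₄ ‖k‖₄`, uniformly in the truncation; so for every
fixed compactly supported `C³` function `f` (every test function) the form with `f` fixed in one
slot is bounded on `L⁴ × L⁴ × L⁴`.
(4) The `L⁴` inequality of the question, uniformly in the truncation, if
`f = a(x₁,x₂) b(x₂,x₃) c(x₃,x₁)` on a cube and `0` outside, with `|a| = |b| = |c| = 1`. -/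
theorem result :
    (∃ C : ℝ, ∀ f g h k : ℝ × ℝ × ℝ → ℝ, Adm f → Adm g → Adm h → Adm k →
      ∀ ε N : ℝ, 0 < ε → ε < N → |Lambda4 ε N f g h k| ≤
        C * Real.sqrt (1 + Real.log (N / ε)) * (norm4 f * norm4 g * norm4 h * norm4 k)) ∧
    (∃ C : ℝ, ∀ f g h : ℝ × ℝ → ℝ, Adm2 f → Adm2 g → Adm2 h →
      Bounded (fun ε N => Lambda3 ε N f g h) (C * (norm3 f * norm3 g * norm3 h))) ∧
    ((∃ C : ℝ, ∀ (f : ℝ × ℝ × ℝ → ℝ) (q : ℝ × ℝ × ℝ) (L : ℝ), ContDiff ℝ 3 f → 0 < L →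
      (∀ x, f x ≠ 0 → x ∈ cube q L) → ∀ g h k : ℝ × ℝ × ℝ → ℝ, Adm g → Adm h → Adm k →
      BoundAll f g h k
        (C * (∫ t, |mixed f t|) * L ^ ((3 : ℝ) / 4) * (norm4 g * norm4 h * norm4 k))) ∧
    (∀ f : ℝ × ℝ × ℝ → ℝ, ContDiff ℝ 3 f → HasCompactSupport f → ∃ K : ℝ,
      ∀ g h k : ℝ × ℝ × ℝ → ℝ, Adm g → Adm h → Adm k →
      BoundAll f g h k (K * (norm4 g * norm4 h * norm4 k)))) ∧
    (∃ C : ℝ, ∀ (q : ℝ × ℝ × ℝ) (L : ℝ), 0 < L → ∀ a b c : ℝ × ℝ → ℝ,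
      Measurable a → Measurable b → Measurable c →
      (∀ p, |a p| = 1) → (∀ p, |b p| = 1) → (∀ p, |c p| = 1) →
      ∀ f g h k : ℝ × ℝ × ℝ → ℝ,
      f = (cube q L).indicator (fun x => a (x.1, x.2.1) * b (x.2.1, x.2.2) * c (x.2.2, x.1)) →
      Adm g → Adm h → Adm k →
      BoundAll f g h k (C * (norm4 f * norm4 g * norm4 h * norm4 k))) := by
  refine ⟨?_, ?_, ?_, ?_⟩
  · obtain ⟨C, hC⟩ := Helper912.LG.final_of_P4 (Helper912.LG.P4_of_P2
      (Pool.Agent.Helper519.LG.P2_of_P1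
        (Pool.Agent.LG704.P1_of_L3 Pool.Agent.Helper519.LG.L3_holds)))
    refine ⟨C, fun f g h k hf hg hh hk ε N h0 h1 => ?_⟩
    have key := hC f g h k hf.meas hg.meas hh.meas hk.meas hf.supp hg.supp hh.supp hk.supp
      hf.bdd hg.bdd hh.bdd hk.bdd ε N h0 h1
    unfold Lambda4 norm4
    exact key.trans (le_of_eq (by ring))
  · obtain ⟨C, _, hC⟩ := Pool.Agent.CTH.lam3
    refine ⟨C, fun f g h hf hg hh => bounded_of fun ε N h0 h1 => ?_⟩
    rw [lam3_eq]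
    exact hC f g h ⟨hf.meas, hf.supp, hf.bdd⟩ ⟨hg.meas, hg.supp, hg.bdd⟩
      ⟨hh.meas, hh.supp, hh.bdd⟩ ε N h0 h1
  · obtain ⟨C, hC0, hC⟩ := Pool.Agent.CTH.lam3
    have part1 : ∀ (f : ℝ × ℝ × ℝ → ℝ) (q : ℝ × ℝ × ℝ) (L : ℝ), ContDiff ℝ 3 f → 0 < L →
        (∀ x, f x ≠ 0 → x ∈ cube q L) → ∀ g h k : ℝ × ℝ × ℝ → ℝ, Adm g → Adm h → Adm k →
        BoundAll f g h k ((2 * C + 1) * (∫ t, |mixed f t|) * L ^ ((3 : ℝ) / 4) *
          (norm4 g * norm4 h * norm4 k)) := by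
      intro f q L hf hL hq
      have hs : HasCompactSupport f := by
        have hcc : IsCompact (cube q L) := by
          have : cube q L = Set.Icc q.1 (q.1+L) ×ˢ (Set.Icc q.2.1 (q.2.1+L) ×ˢ
              Set.Icc q.2.2 (q.2.2+L)) := by
            ext x; rfl
          rw [this]
          exact isCompact_Icc.prod (isCompact_Icc.prod isCompact_Icc)
        refine HasCompactSupport.intro hcc (fun x hx => ?_)
        by_contra h0
        exact hx (hq x h0)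
      refine boundAll_of ?_
      intro g h k hg hh hk ε N hε hN
      rw [lam_eq]
      exact Pool.Agent.H710FT.main hC0 hC hf hs q L hL hq g h k ⟨hg.meas, hg.supp, hg.bdd⟩
        ⟨hh.meas, hh.supp, hh.bdd⟩ ⟨hk.meas, hk.supp, hk.bdd⟩ ε N hε hN
    refine ⟨⟨2 * C + 1, part1⟩, ?_⟩
    intro f hf hs
    obtain ⟨R, hR⟩ := hs.isBounded.subset_closedBall (0 : ℝ × ℝ × ℝ)
    set R' : ℝ := max R 1 with hR'
    have hR0 : 0 < R' := lt_of_lt_of_le one_pos (le_max_right _ _)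
    have hq : ∀ x, f x ≠ 0 → x ∈ cube (-R', -R', -R') (2 * R') := by
      intro x hx
      have h1 := hR (subset_tsupport f hx)
      rw [mem_closedBall_zero_iff, Prod.norm_def, Prod.norm_def] at h1
      have h2 : |x.1| ≤ R' := ((max_le_iff.mp h1).1).trans (le_max_left _ _)
      have h3 : |x.2.1| ≤ R' := ((max_le_iff.mp (max_le_iff.mp h1).2).1).trans (le_max_left _ _)
      have h4 : |x.2.2| ≤ R' := ((max_le_iff.mp (max_le_iff.mp h1).2).2).trans (le_max_left _ _)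
      rw [abs_le] at h2 h3 h4
      exact ⟨⟨h2.1, by linarith [h2.2]⟩, ⟨h3.1, by linarith [h3.2]⟩, ⟨h4.1, by linarith [h4.2]⟩⟩
    refine ⟨(2 * C + 1) * (∫ t, |mixed f t|) * (2 * R') ^ ((3 : ℝ) / 4), ?_⟩
    intro g h k hg hh hk
    exact part1 f (-R', -R', -R') (2 * R') hf (by positivity) hq g h k hg hh hk
  · obtain ⟨C, hC0, hC⟩ := Pool.Agent.CTH.lam3
    refine ⟨2 * C + 1, ?_⟩
    intro q L hL a b c ha hb hc ha1 hb1 hc1 f g h k hf hg hh hk
    have hn : norm4 f = L ^ ((3 : ℝ) / 4) := by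
      rw [hf]
      exact Pool.Agent.CTH.cube_norm q L hL _ (fun p => by
        rw [abs_mul, abs_mul, ha1, hb1, hc1]; norm_num)
    have key : BoundAll f g h k ((2 * C + 1) * L ^ ((3 : ℝ) / 4) *
        (norm4 g * norm4 h * norm4 k)) := by
      refine boundAll_of ?_ g h k hg hh hk
      intro g h k hg hh hk ε N hε hN
      rw [lam_eq, hf]
      exact Pool.Agent.CTH.cube_main hC0 hC q L hL a b c ha hb hc (fun p => (ha1 p).le)
        (fun p => (hb1 p).le) (fun p => (hc1 p).le) g h k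
        ⟨hg.meas, hg.supp, hg.bdd⟩ ⟨hh.meas, hh.supp, hh.bdd⟩ ⟨hk.meas, hk.supp, hk.bdd⟩ ε N hε hN
    have e : (2 * C + 1) * (norm4 f * norm4 g * norm4 h * norm4 k) =
        (2 * C + 1) * L ^ ((3 : ℝ) / 4) * (norm4 g * norm4 h * norm4 k) := by
      rw [hn]; ring
    rw [e]
    exact key

end Pool.Agent.Results.MP_5ef378_an.AAllParts
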